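import Pool.Agent.MP_5f72fe_nt.H3.SpecA

/-! Integral facts on the basic series. -/

namespace Pool.Agent.MP_5f72fe_nt.H62

open Pool.Agent.MP_5f72fe_nt.H3 PowerSeries

namespace IntF

theorem icc_of_sq {r : ℤ} {n : ℕ} (h : r ^ 2 ≤ n) : r ∈ Finset.Icc (-(n : ℤ)) n :=
  Finset.mem_Icc.2 ⟨by nlinarith [sq_nonneg (2 * r + 1)], by nlinarith [sq_nonneg (2 * r - 1)]⟩

theorem mem_hex {n : ℕ} {v : ℤ × ℤ} :
    v ∈ hex n ↔ v.1 ^ 2 + 3 * v.2 ^ 2 = n ∧ v.1 % 2 = v.2 % 2 := by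
  rw [hex, Finset.mem_filter, Finset.mem_product]
  exact ⟨fun h => h.2, fun h => ⟨⟨icc_of_sq (by nlinarith [h.1, sq_nonneg v.2]),
    icc_of_sq (by nlinarith [h.1, sq_nonneg v.1, sq_nonneg v.2])⟩, h⟩⟩

theorem sq_mod (y : ℤ) : ∃ k : ℤ, (y % 3 = 0 ∧ y ^ 2 = 3 * k) ∨ (y % 3 ≠ 0 ∧ y ^ 2 = 3 * k + 1) := by
  have h : y % 3 = 0 ∨ y % 3 = 1 ∨ y % 3 = 2 := by omega
  rcases h with h | h | h
  · obtain ⟨u, rfl⟩ : ∃ u, y = 3 * u := ⟨y / 3, by omega⟩
    exact ⟨3 * u ^ 2, Or.inl ⟨h, by ring⟩⟩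
  · obtain ⟨u, rfl⟩ : ∃ u, y = 3 * u + 1 := ⟨y / 3, by omega⟩
    exact ⟨3 * u ^ 2 + 2 * u, Or.inr ⟨by omega, by ring⟩⟩
  · obtain ⟨u, rfl⟩ : ∃ u, y = 3 * u + 2 := ⟨y / 3, by omega⟩
    exact ⟨3 * u ^ 2 + 4 * u + 1, Or.inr ⟨by omega, by ring⟩⟩

theorem hex_four {n : ℕ} {v : ℤ × ℤ} (h : v ∈ hex n) : n % 4 = 0 := by
  obtain ⟨y, b⟩ := v
  obtain ⟨h1, h2⟩ := mem_hex.1 h
  dsimp only at h1 h2
  obtain ⟨s, rfl⟩ : ∃ s, y = b + 2 * s := ⟨(y - b) / 2, by omega⟩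
  have e : (n : ℤ) = 4 * (b ^ 2 + b * s + s ^ 2) := by rw [← h1]; ring
  omega

theorem card_three (m : ℕ) : (hex (3 * m)).card = (hex m).card := by
  refine Finset.card_nbij' (fun v => (v.2, v.1 / 3)) (fun v => (3 * v.2, v.1)) ?_ ?_ ?_ ?_
  · rintro ⟨y, b⟩ h
    obtain ⟨h1, h2⟩ := mem_hex.1 h
    dsimp only at h1 h2
    obtain ⟨k, hk⟩ := sq_mod y
    obtain ⟨u, rfl⟩ : ∃ u, y = 3 * u := ⟨y / 3, by omega⟩
    refine mem_hex.2 ⟨?_, ?_⟩
    · dsimp only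
      rw [Int.mul_ediv_cancel_left _ (by norm_num)]
      push_cast at h1
      linarith
    · dsimp only
      omega
  · rintro ⟨y, b⟩ h
    obtain ⟨h1, h2⟩ := mem_hex.1 h
    dsimp only at h1 h2
    refine mem_hex.2 ⟨?_, ?_⟩
    · dsimp only
      push_cast
      linarith
    · dsimp only
      omega
  · rintro ⟨y, b⟩ h
    obtain ⟨h1, h2⟩ := mem_hex.1 h
    dsimp only at h1 h2
    obtain ⟨k, hk⟩ := sq_mod y
    refine Prod.ext ?_ rfl
    dsimp only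
    omega
  · rintro ⟨y, b⟩ _
    refine Prod.ext rfl ?_
    dsimp only
    omega

/-- The classes modulo three. -/
noncomputable def cl (n : ℕ) (i j : ℤ) : Finset (ℤ × ℤ) := (hex n).filter fun v => v.1 % 3 = i ∧ v.2 % 3 = j

theorem cl_rot (n : ℕ) (i j : ℤ) : (cl n i j).card ≤ (cl n i ((j - i) % 3)).card := by
  refine Finset.card_le_card_of_injOn (fun v => ((-v.1 - 3 * v.2) / 2, (v.1 - v.2) / 2)) ?_ ?_
  · rintro ⟨y, b⟩ h
    obtain ⟨h0, h3, h4⟩ := Finset.mem_filter.1 h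
    obtain ⟨h1, h2⟩ := mem_hex.1 h0
    dsimp only at h1 h2 h3 h4
    obtain ⟨s, rfl⟩ : ∃ s, y = b + 2 * s := ⟨(y - b) / 2, by omega⟩
    have e1 : (-(b + 2 * s) - 3 * b) / 2 = -s - 2 * b := by omega
    have e2 : (b + 2 * s - b) / 2 = s := by omega
    dsimp only
    rw [e1, e2]
    refine Finset.mem_filter.2 ⟨mem_hex.2 ⟨?_, ?_⟩, ?_, ?_⟩ <;> dsimp only
    · rw [← h1]; ring
    · omega
    · omega
    · omega
  · rintro ⟨y, b⟩ h ⟨y', b'⟩ h' e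
    have h2 := (mem_hex.1 (Finset.mem_filter.1 h).1).2
    have h2' := (mem_hex.1 (Finset.mem_filter.1 h').1).2
    obtain ⟨e1, e2⟩ := Prod.ext_iff.1 e
    dsimp only at h2 h2' e1 e2
    refine Prod.ext ?_ ?_ <;> dsimp only <;> omega

theorem cl_neg (n : ℕ) (i : ℤ) : (cl n i 0).card ≤ (cl n (-i % 3) 0).card := by
  refine Finset.card_le_card_of_injOn (fun v => -v) ?_ neg_injective.injOn
  rintro ⟨y, b⟩ h
  obtain ⟨h0, h3, h4⟩ := Finset.mem_filter.1 h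
  obtain ⟨h1, h2⟩ := mem_hex.1 h0
  dsimp only at h1 h2 h3 h4
  refine Finset.mem_filter.2 ⟨mem_hex.2 ⟨?_, ?_⟩, ?_, ?_⟩ <;>
    simp only [Prod.neg_mk]
  · rw [← h1]; ring
  · omega
  · omega
  · omega

theorem card_six {n : ℕ} (hn : ¬ 3 ∣ n) : (hex n).card = 6 * (cl n 1 0).card := by
  have h := Finset.card_eq_sum_card_fiberwise (s := hex n)
    (t := ({(1, 0), (1, 1), (1, 2), (2, 0), (2, 1), (2, 2)} : Finset (ℤ × ℤ)))
    (f := fun v => (v.1 % 3, v.2 % 3)) (by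
      rintro ⟨y, b⟩ h
      have h1 := (mem_hex.1 h).1
      dsimp only at h1
      obtain ⟨k, hk⟩ := sq_mod y
      simp only [Finset.coe_insert, Finset.coe_singleton, Set.mem_insert_iff, Prod.mk.injEq,
        Set.mem_singleton_iff]
      omega)
  have e : ∀ i j : ℤ, ((hex n).filter fun v => (v.1 % 3, v.2 % 3) = (i, j)) = cl n i j :=
    fun i j => Finset.filter_congr fun v _ => Prod.ext_iff
  rw [Finset.sum_insert (by decide), Finset.sum_insert (by decide), Finset.sum_insert (by decide),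
    Finset.sum_insert (by decide), Finset.sum_insert (by decide), Finset.sum_singleton,
    e, e, e, e, e, e] at h
  have a1 : (cl n 1 0).card ≤ (cl n 1 2).card := cl_rot n 1 0
  have a2 : (cl n 1 2).card ≤ (cl n 1 1).card := cl_rot n 1 2
  have a3 : (cl n 1 1).card ≤ (cl n 1 0).card := cl_rot n 1 1
  have b1 : (cl n 2 0).card ≤ (cl n 2 1).card := cl_rot n 2 0
  have b2 : (cl n 2 1).card ≤ (cl n 2 2).card := cl_rot n 2 1
  have b3 : (cl n 2 2).card ≤ (cl n 2 0).card := cl_rot n 2 2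
  have c1 : (cl n 1 0).card ≤ (cl n 2 0).card := cl_neg n 1
  have c2 : (cl n 2 0).card ≤ (cl n 1 0).card := cl_neg n 2
  omega

theorem coeff_nat (k n : ℕ) (F : ℤ⟦X⟧) : coeff n ((k : ℤ⟦X⟧) * F) = k * coeff n F := by
  rw [← nsmul_eq_mul, map_nsmul, nsmul_eq_mul]

theorem coeff_K (n : ℕ) : coeff n Kk = ((cl n 1 0).card : ℤ) := by
  rw [Kk, coeff_mk, cl]
  exact congrArg (fun s : Finset (ℤ × ℤ) => (s.card : ℤ))
    (Finset.filter_congr fun v _ => by rw [Int.dvd_iff_emod_eq_zero])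

theorem K_mod {n : ℕ} (h : coeff n Kk ≠ 0) : n % 3 = 1 ∧ n % 4 = 0 := by
  rw [coeff_K, Nat.cast_ne_zero, Finset.card_ne_zero] at h
  obtain ⟨⟨y, b⟩, h⟩ := h
  obtain ⟨h0, h3, -⟩ := Finset.mem_filter.1 h
  have h1 := (mem_hex.1 h0).1
  dsimp only at h1 h3
  obtain ⟨k, hk⟩ := sq_mod y
  exact ⟨by omega, hex_four h0⟩

theorem hexK (n : ℕ) : ((hex n).card : ℤ) = coeff n (Aa + 6 * Kk) := by
  have e : coeff n (6 * Kk) = 6 * coeff n Kk := coeff_nat 6 n Kk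
  rw [map_add, e, Aa, coeff_mk]
  split_ifs with h
  · have h0 : coeff n Kk = 0 := by
      by_contra hc
      have := (K_mod hc).1
      omega
    obtain ⟨m, rfl⟩ := h
    rw [h0, Nat.mul_div_cancel_left _ (by norm_num), card_three, mul_zero, add_zero]
  · rw [card_six h, coeff_K]
    push_cast; ring

theorem hex_mod (n : ℕ) (hn : 0 < n) : (3 : ℤ) ∣ (hex n).card := by
  induction n using Nat.strong_induction_on with
  | _ n ih =>
    by_cases h : 3 ∣ n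
    · obtain ⟨m, rfl⟩ := h
      rw [card_three]
      exact ih m (by omega) (by omega)
    · rw [card_six h]
      push_cast
      exact Dvd.dvd.mul_right (by norm_num) _

theorem coeff_A0 : coeff 0 Aa = 1 := by
  rw [Aa, coeff_mk]; decide

theorem redA : red Aa = 1 := by
  ext n
  rw [red, coeff_map, coeff_one]
  split_ifs with h
  · rw [h, coeff_A0, map_one]
  · rw [Aa, coeff_mk]
    split_ifs with h3
    · exact (ZMod.intCast_zmod_eq_zero_iff_dvd _ 3).2 (hex_mod _ (by omega))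
    · exact map_zero _

/-- The index set of a coefficient of `Tm`. -/
noncomputable def Rs (μ n : ℕ) : Finset ℤ :=
  (Finset.Icc (-(n : ℤ)) n).filter fun r : ℤ => 3 * r ^ 2 = n ∧ r % 2 = μ

theorem mem_Rs {μ n : ℕ} {r : ℤ} : r ∈ Rs μ n ↔ 3 * r ^ 2 = n ∧ r % 2 = μ := by
  rw [Rs, Finset.mem_filter]
  exact ⟨fun h => h.2, fun h => ⟨icc_of_sq (by nlinarith [h.1, sq_nonneg r]), h⟩⟩

theorem coeff_T (μ n : ℕ) : coeff n (Tm μ) = ((Rs μ n).card : ℤ) := coeff_mk _ _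

/-- The index set of a coefficient of the expanded series. -/
noncomputable def Rt (μ n : ℕ) : Finset ℤ := if 3 ∣ n then Rs μ (n / 3) else ∅

theorem mem_Rt {μ n : ℕ} {r : ℤ} : r ∈ Rt μ n ↔ 9 * r ^ 2 = n ∧ r % 2 = μ := by
  rw [Rt]
  split_ifs with h
  · rw [mem_Rs]
    omega
  · simp only [Finset.notMem_empty, false_iff]
    omega

/-- The index set of a coefficient of `Aa`. -/
noncomputable def hA (n : ℕ) : Finset (ℤ × ℤ) := if 3 ∣ n then hex (n / 3) else ∅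

theorem mem_hA {n : ℕ} {v : ℤ × ℤ} :
    v ∈ hA n ↔ 3 * v.1 ^ 2 + 9 * v.2 ^ 2 = n ∧ v.1 % 2 = v.2 % 2 := by
  rw [hA]
  split_ifs with h
  · rw [mem_hex]
    omega
  · simp only [Finset.notMem_empty, false_iff]
    omega

theorem coeff_A (n : ℕ) : coeff n Aa = ((hA n).card : ℤ) := by
  rw [Aa, coeff_mk, hA]
  split_ifs <;> simp

theorem coeff_TT (μ n : ℕ) : coeff n (Tm μ * expand 3 (by norm_num) (Tm μ)) =
    (((hA n).filter fun v : ℤ × ℤ => v.1 % 2 = μ).card : ℤ) := by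
  have e : ∀ j, coeff j (expand 3 (by norm_num) (Tm μ)) = ((Rt μ j).card : ℤ) := fun j => by
    rw [coeff_expand, Rt, coeff_T]
    split_ifs <;> simp
  rw [coeff_mul]
  simp only [e, coeff_T, ← Nat.cast_mul, ← Finset.card_product]
  rw [← Nat.cast_sum, ← Finset.card_sigma]
  refine congrArg Nat.cast (Finset.card_bij (fun x _ => x.2) ?_ ?_ ?_)
  · rintro ⟨⟨i, j⟩, y, b⟩ h
    simp only [Finset.mem_sigma, Finset.HasAntidiagonal.mem_antidiagonal, Finset.mem_product, mem_Rs,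
      mem_Rt] at h
    simp only [Finset.mem_filter, mem_hA]
    omega
  · rintro ⟨⟨i, j⟩, y, b⟩ h ⟨⟨i', j'⟩, y', b'⟩ h' e
    simp only [Finset.mem_sigma, Finset.HasAntidiagonal.mem_antidiagonal, Finset.mem_product, mem_Rs,
      mem_Rt] at h h'
    obtain ⟨rfl, rfl⟩ := Prod.mk.inj e
    obtain rfl : i = i' := by omega
    obtain rfl : j = j' := by omega
    rfl
  · rintro ⟨y, b⟩ h
    simp only [Finset.mem_filter, mem_hA] at h
    have h1 := sq_nonneg y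
    have h2 := sq_nonneg b
    refine ⟨⟨((3 * y ^ 2).toNat, (9 * b ^ 2).toNat), y, b⟩, ?_, rfl⟩
    simp only [Finset.mem_sigma, Finset.HasAntidiagonal.mem_antidiagonal, Finset.mem_product, mem_Rs, mem_Rt]
    omega

theorem A_eq : Aa = Tm 0 * expand 3 (by norm_num) (Tm 0) + Tm 1 * expand 3 (by norm_num) (Tm 1) := by
  ext n
  have e : ((hA n).filter fun v : ℤ × ℤ => v.1 % 2 = (1 : ℕ)) =
      (hA n).filter fun v : ℤ × ℤ => ¬ v.1 % 2 = (0 : ℕ) :=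
    Finset.filter_congr fun v _ => by omega
  rw [map_add, coeff_TT, coeff_TT, coeff_A, ← Nat.cast_add, e,
    Finset.card_filter_add_card_filter_not]

theorem frob (F : (ZMod 3)⟦X⟧) : expand 3 (by norm_num) F = F ^ 3 := by
  have : Fact (Nat.Prime 3) := ⟨by norm_num⟩
  have h := MvPowerSeries.map_frobenius_expand 3 (by norm_num) (f := F)
  rw [ZMod.frobenius_zmod, MvPowerSeries.map_id] at h
  exact h

theorem four : red (Tm 0) ^ 4 + red (Tm 1) ^ 4 = 1 := by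
  rw [← redA, A_eq]
  simp only [red, map_add, map_mul, map_expand, frob]
  ring

theorem three (μ : ℕ) (hμ : μ < 2) : 3 * Pm μ = Aa ^ 2 * Tm μ - Hm μ := by
  have h3 : (3 : (ZMod 3)⟦X⟧) = 0 := by
    rw [← map_ofNat (C : ZMod 3 →+* (ZMod 3)⟦X⟧) 3]
    exact (congrArg C (by decide)).trans (map_zero _)
  have h4 : red (Tm μ) ^ 4 + red (Tm (1 - μ)) ^ 4 = 1 := by
    interval_cases μ
    · exact four
    · rw [add_comm]; exact four
  have h : red (Aa ^ 2 * Tm μ - Hm μ) = 0 := by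
    have e := redA
    simp only [red, Hm, map_sub, map_mul, map_pow, map_ofNat] at h4 e ⊢
    rw [e]
    linear_combination (-(map (Int.castRingHom (ZMod 3)) (Tm μ))) * h4 +
      2 * map (Int.castRingHom (ZMod 3)) (Tm μ) * map (Int.castRingHom (ZMod 3)) (Tm (1 - μ)) ^ 4 * h3
  ext n
  have e : coeff n (3 * Pm μ) = 3 * coeff n (Pm μ) := coeff_nat 3 n _
  have h1 := congrArg (coeff n) h
  rw [red, coeff_map, map_zero] at h1
  rw [e, Pm, coeff_mk]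
  exact Int.mul_ediv_cancel' ((ZMod.intCast_zmod_eq_zero_iff_dvd _ 3).1 h1)

theorem supMul (M r s : ℕ) (F G : ℤ⟦X⟧) (hF : Sup M r F) (hG : Sup M s G) :
    Sup M (r + s) (F * G) ∧ coeff (r + s) (F * G) = coeff r F * coeff s G := by
  constructor
  · intro n hn
    rw [coeff_mul] at hn
    obtain ⟨p, hp, h⟩ := Finset.exists_ne_zero_of_sum_ne_zero hn
    obtain ⟨t, ht⟩ := hF _ (left_ne_zero_of_mul h)
    obtain ⟨u, hu⟩ := hG _ (right_ne_zero_of_mul h)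
    refine ⟨t + u, ?_⟩
    rw [← Finset.HasAntidiagonal.mem_antidiagonal.1 hp, ht, hu]; ring
  · rw [coeff_mul]
    refine Finset.sum_eq_single (r, s) (fun p hp hne => ?_) fun h => (h (by simp)).elim
    by_contra h
    obtain ⟨t, ht⟩ := hF _ (left_ne_zero_of_mul h)
    obtain ⟨u, hu⟩ := hG _ (right_ne_zero_of_mul h)
    have h1 := Finset.HasAntidiagonal.mem_antidiagonal.1 hp
    exact hne (Prod.ext (by dsimp only; omega) (by dsimp only; omega))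

/-- Support and leading coefficient. -/
def L (r : ℕ) (F : ℤ⟦X⟧) (c : ℤ) : Prop := Sup 12 r F ∧ coeff r F = c

theorem L.mul {r s : ℕ} {F G : ℤ⟦X⟧} {c d : ℤ} (h : L r F c) (h' : L s G d) :
    L (r + s) (F * G) (c * d) :=
  ⟨(supMul 12 r s F G h.1 h'.1).1, by rw [(supMul 12 r s F G h.1 h'.1).2, h.2, h'.2]⟩

theorem L.pow {r : ℕ} {F : ℤ⟦X⟧} {c : ℤ} (h : L r F c) (k : ℕ) : L (r * k) (F ^ k) (c ^ k) := by
  induction k with
  | zero =>
    refine ⟨fun n hn => ⟨0, ?_⟩, by simp⟩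
    by_contra hc
    exact hn (by rw [pow_zero, coeff_one, if_neg (by simpa using hc)])
  | succ k ih => rw [pow_succ, pow_succ, Nat.mul_succ]; exact ih.mul h

theorem L.sub {r : ℕ} {F G : ℤ⟦X⟧} {c d : ℤ} (h : L r F c) (h' : L r G d) :
    L r (F - G) (c - d) := by
  refine ⟨fun n hn => ?_, by rw [map_sub, h.2, h'.2]⟩
  by_cases e : coeff n F = 0
  · exact h'.1 n fun e' => hn (by rw [map_sub, e, e', sub_zero])
  · exact h.1 n e

theorem L.nat {r : ℕ} {F : ℤ⟦X⟧} {c : ℤ} (h : L r F c) (k : ℕ) : L r ((k : ℤ⟦X⟧) * F) (k * c) :=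
  ⟨fun n hn => h.1 n fun e => hn (by rw [coeff_nat, e, mul_zero]), by rw [coeff_nat, h.2]⟩

theorem L.down {F : ℤ⟦X⟧} {c : ℤ} (h : L 12 F c) : L 0 F 0 := by
  constructor
  · intro n hn
    obtain ⟨t, ht⟩ := h.1 n hn
    exact ⟨t + 1, by omega⟩
  · by_contra hc
    obtain ⟨t, ht⟩ := h.1 0 hc
    omega

theorem LT0 : L 0 (Tm 0) 1 := by
  refine ⟨fun n hn => ?_, by rw [coeff_T]; decide⟩
  rw [coeff_T, Nat.cast_ne_zero, Finset.card_ne_zero] at hn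
  obtain ⟨r, hr⟩ := hn
  obtain ⟨h1, h2⟩ := mem_Rs.1 hr
  obtain ⟨s, rfl⟩ : ∃ s, r = 2 * s := ⟨r / 2, by omega⟩
  have e : (n : ℤ) = 12 * s ^ 2 := by rw [← h1]; ring
  exact ⟨n / 12, by omega⟩

theorem LT1 : L 3 (Tm 1) 2 := by
  refine ⟨fun n hn => ?_, by rw [coeff_T]; decide⟩
  rw [coeff_T, Nat.cast_ne_zero, Finset.card_ne_zero] at hn
  obtain ⟨r, hr⟩ := hn
  obtain ⟨h1, h2⟩ := mem_Rs.1 hr
  obtain ⟨s, rfl⟩ : ∃ s, r = 2 * s + 1 := ⟨r / 2, by omega⟩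
  have e : (n : ℤ) = 3 + 12 * (s ^ 2 + s) := by rw [← h1]; ring
  exact ⟨n / 12, by omega⟩

theorem LA : L 0 Aa 1 := by
  refine ⟨fun n hn => ?_, coeff_A0⟩
  rw [Aa, coeff_mk] at hn
  split_ifs at hn with h
  · rw [Nat.cast_ne_zero, Finset.card_ne_zero] at hn
    obtain ⟨v, hv⟩ := hn
    have := hex_four hv
    exact ⟨n / 12, by omega⟩
  · exact absurd rfl hn

theorem LK : L 4 Kk 1 := by
  refine ⟨fun n hn => ?_, by rw [coeff_K]; decide⟩
  have := K_mod hn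
  exact ⟨n / 12, by omega⟩

theorem LH0 : L 0 (Hm 0) 1 := LT0.mul ((LT0.pow 4).sub (L.nat (L.down (LT1.pow 4)) 5))

theorem LH1 : L 3 (Hm 1) (-10) := LT1.mul ((L.down (LT1.pow 4)).sub (L.nat (LT0.pow 4) 5))

theorem LP0 : L 0 (Aa ^ 2 * Tm 0 - Hm 0) 0 := ((LA.pow 2).mul LT0).sub LH0

theorem LP1 : L 3 (Aa ^ 2 * Tm 1 - Hm 1) 12 := ((LA.pow 2).mul LT1).sub LH1

theorem P_ne {μ n : ℕ} (h : coeff n (Pm μ) ≠ 0) : coeff n (Aa ^ 2 * Tm μ - Hm μ) ≠ 0 :=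
  fun e => h (by rw [Pm, coeff_mk, e, Int.zero_ediv])

end IntF

open IntF in
theorem rowINT : RowINT where
  hexK := hexK
  three := three
  redA := redA
  supMul := supMul
  supT := ⟨LT0.1, LT1.1, LT0.2, LT1.2⟩
  supA := LA
  supK := LK
  supH := ⟨LH0.1, LH1.1⟩
  supP := by
    refine ⟨fun n hn => ?_, fun n hn => LP1.1 n (P_ne hn), ?_⟩
    · obtain ⟨t, ht⟩ := LP0.1 n (P_ne hn)
      have h0 : n ≠ 0 := by
        rintro rfl
        exact P_ne hn LP0.2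
      exact ⟨t - 1, by omega⟩
    · rw [Pm, coeff_mk, LP1.2]; rfl
  supE := LK.mul ((LA.pow 3).sub (L.nat (L.down (LK.pow 3)) 27))
  supD := (LT0.mul LT1).mul ((LT0.pow 4).sub (L.down (LT1.pow 4)))

end Pool.Agent.MP_5f72fe_nt.H62
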