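import Pool.Agent.MP_5f72fe_nt.H3.SpecC

/-! The criterion for non-vanishing. -/

namespace Pool.Agent.MP_5f72fe_nt.H62

open Complex Filter MeasureTheory
open scoped Real MatrixGroups UpperHalfPlane NumberTheorySymbols
open Pool.Agent.MP_5f72fe_nt.H3

namespace Crit

theorem sm_par {c : ℕ → ℂ} (h : Sm c) (μ : ℕ) : Sm (par μ c) := fun r h0 h1 =>
  (h r h0 h1).of_nonneg_of_le (fun n => by positivity) fun n => by
    refine mul_le_mul_of_nonneg_right ?_ (by positivity)
    unfold par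
    split_ifs <;> simp

theorem ser_add (hS : RowSER) {c d : ℕ → ℂ} (hc : Sm c) (hd : Sm d) (μ : ℕ) {τ : ℂ}
    (hτ : 0 < τ.im) : ser 4 (par μ (c + d)) τ = ser 4 (par μ c) τ + ser 4 (par μ d) τ := by
  rw [ser, ser, ser, ← (hS.nsum 4 _ τ (by norm_num) (sm_par hc μ) hτ).of_norm.tsum_add
    (hS.nsum 4 _ τ (by norm_num) (sm_par hd μ) hτ).of_norm]
  refine tsum_congr fun n => ?_
  unfold par
  split_ifs
  · rw [Pi.add_apply, add_mul]
  · simp

theorem ser_smul (x : ℂ) (c : ℕ → ℂ) (μ : ℕ) (τ : ℂ) :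
    ser 4 (par μ (x • c)) τ = x * ser 4 (par μ c) τ := by
  rw [ser, ser, ← tsum_mul_left]
  refine tsum_congr fun n => ?_
  unfold par
  split_ifs
  · rw [Pi.smul_apply, smul_eq_mul, mul_assoc]
  · simp

theorem vl_smul {k : ℕ} (x : ℂ) {c : ℕ → ℂ} (h : VL k c) : VL k (x • c) := by
  refine ⟨fun r h0 h1 => ?_, fun n hn => h.2.1 n fun e => hn (by simp [e]), fun τ hτ μ hμ => ?_⟩
  · simpa only [Pi.smul_apply, smul_eq_mul, norm_mul, mul_assoc] using
      (h.1 r h0 h1).mul_left ‖x‖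
  · rw [ser_smul, ser_smul, ser_smul, h.2.2 τ hτ μ hμ]; ring

/-- The plus space as a submodule. -/
def VS (hS : RowSER) (k : ℕ) : Submodule ℂ (ℕ → ℂ) where
  carrier := {c | VL k c}
  zero_mem' := ⟨fun r _ _ => by simp, fun n hn => absurd rfl hn,
    fun τ _ μ _ => by simp [ser, par]⟩
  add_mem' := fun {c d} hc hd => by
    refine ⟨fun r h0 h1 => ?_, fun n hn => ?_, fun τ hτ μ hμ => ?_⟩
    · refine ((hc.1 r h0 h1).add (hd.1 r h0 h1)).of_nonneg_of_le (fun n => by positivity)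
        fun n => ?_
      rw [← add_mul]
      exact mul_le_mul_of_nonneg_right (norm_add_le _ _) (by positivity)
    · by_cases e : c n = 0
      · exact hd.2.1 n fun e' => hn (by simp [e, e'])
      · exact hc.2.1 n e
    · have h1 : 0 < (-1 / (((1 : ℕ) : ℂ) * τ)).im := by
        have h2 : 0 < normSq τ := normSq_pos.2 fun e => by simp [e] at hτ
        rw [Nat.cast_one, one_mul, div_im]
        simp only [neg_im, one_im, neg_zero, zero_mul, zero_div, neg_re, one_re, neg_mul, one_mul,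
          neg_div, zero_sub, neg_neg]
        positivity
      rw [ser_add hS hc.1 hd.1 μ h1, ser_add hS hc.1 hd.1 0 hτ, ser_add hS hc.1 hd.1 1 hτ,
        hc.2.2 τ hτ μ hμ, hd.2.2 τ hτ μ hμ]
      ring
  smul_mem' := fun x _ h => vl_smul x h

theorem shim_zero {N k : ℕ} {c : ℕ → ℂ} (h : ∀ m, 1 ≤ m → shim N k c m = 0) (m : ℕ)
    (hm : 1 ≤ m) : c (N * m ^ 2) = 0 := by
  induction m using Nat.strong_induction_on with
  | _ m ih =>
    have h1 := h m hm
    rw [shim, Finset.sum_eq_single 1 (fun δ hδ h2 => ?_) fun h2 => (h2 (by simp; omega)).elim] at h1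
    · simpa using h1
    · have h3 := Nat.pos_of_mem_divisors hδ
      rw [ih (m / δ) (Nat.div_lt_self hm (by omega))
        (Nat.div_pos (Nat.divisor_le hδ) h3), mul_zero]

theorem shim_sum {ι : Type} (s : Finset ι) (x : ι → ℂ) (h : ι → ℕ → ℂ) (N k m : ℕ) :
    shim N k (∑ i ∈ s, x i • h i) m = ∑ i ∈ s, x i * shim N k (h i) m := by
  simp only [shim, Finset.sum_apply, Pi.smul_apply, smul_eq_mul, Finset.mul_sum]
  rw [Finset.sum_comm]
  exact Finset.sum_congr rfl fun i _ => Finset.sum_congr rfl fun δ _ => by ring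

theorem pw_sq (N k t : ℕ) (hk : 1 ≤ k) : pw k (N * t ^ 2) = pw k N * (t : ℂ) ^ (2 * k - 1) := by
  have e : (((t : ℝ) ^ 2) ^ (k - 1 / 2 : ℝ)) = (t : ℝ) ^ (2 * k - 1) := by
    rw [← Real.rpow_natCast, ← Real.rpow_mul (Nat.cast_nonneg t), ← Real.rpow_natCast,
      Nat.cast_sub (by omega)]
    refine congrArg _ ?_
    push_cast; ring
  rw [pw, pw, Nat.cast_mul, Nat.cast_pow, Real.mul_rpow (Nat.cast_nonneg N) (by positivity), e]
  push_cast; ring

end Crit

open Crit in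
theorem rowCRIT : OfCRIT := by
  intro hS hCOL hUNF hSHIM hDUAL hVDIM hUS hPET hMEL N k f L hA hH hL hyp h0
  obtain ⟨ν, hν⟩ := hUNF
  obtain ⟨l, hl, hl0⟩ := hPET ν k f hν
  have hF : ∀ n : ℕ, ∃ F : CuspForm 𝒮ℒ (2 * k : ℕ), 1 ≤ n → (∀ z : ℍ, F z = fq N k n z) ∧
      ∀ m : ℕ, 1 ≤ m → aF F m = Acol N k n m := fun n => by
    by_cases hn : 1 ≤ n
    · obtain ⟨F, h⟩ := hCOL N k n hA hn
      exact ⟨F, fun _ => h⟩
    · exact ⟨0, fun h => absurd h hn⟩
  choose F hF using hF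
  have hk : 6 ≤ k := hA.1
  have hN : 1 ≤ N := Nat.one_le_iff_ne_zero.2 hA.2.1.ne_zero
  have hg := hDUAL N k l F hA fun n hn => (hF n hn).2
  have hLam : ∀ t, 1 ≤ t → 2 * l (F (N * t ^ 2)) = Lam N k t f := fun t ht => by
    rw [← hUS ν N k t f hν hA ht, hl]
    refine congrArg _ (integral_congr_ae ?_)
    filter_upwards [hν.2.1] with τ hτ
    have e1 := (hF (N * t ^ 2) (Nat.mul_pos hN (by positivity))).1 ⟨τ, hτ⟩
    have e2 := (hS.cf _ (F (N * t ^ 2))).2.2.1 ⟨τ, hτ⟩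
    have e3 : fC (F (N * t ^ 2)) τ = fq N k (N * t ^ 2) τ := e2.symm.trans e1
    rw [ps, ps, e3]
  have hz : (fun n => pw k n * l (F n)) = 0 := by
    refine hyp _ hg ?_ (shim_zero (k := k) (c := fun n => pw k n * l (F n)) fun m hm => ?_)
    · have : (k - 1 / 2 : ℝ) ≠ 0 := by
        have : (6 : ℝ) ≤ k := by exact_mod_cast hk
        linarith
      simp only [pw, Nat.cast_zero, Real.zero_rpow this, ofReal_zero, zero_mul]
    · rw [← mul_zero (pw k N / 2), ← hMEL N k f L hA hH hL h0 m hm, shim, Finset.mul_sum]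
      refine Finset.sum_congr rfl fun δ hδ => ?_
      rw [pw_sq N k _ (by omega), ← hLam _
        (Nat.div_pos (Nat.divisor_le hδ) (Nat.pos_of_mem_divisors hδ))]
      ring
  have hlF : ∀ n, 1 ≤ n → l (F n) = 0 := fun n hn => by
    refine (mul_eq_zero.1 (congrFun hz n)).resolve_left ?_
    exact ofReal_ne_zero.2 (Real.rpow_pos_of_pos (Nat.cast_pos.2 hn) _).ne'
  obtain ⟨A, -, hA'⟩ := hS.cfLin (2 * k : ℕ)
  obtain ⟨r, h, hh, hi, hr⟩ := hVDIM k hk
  have hG : ∀ i, ∃ G : CuspForm 𝒮ℒ (2 * k : ℕ), l G = 0 ∧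
      ∀ m, 1 ≤ m → A G m = shim N k (h i) m := fun i => by
    obtain ⟨S, x, h1, h2⟩ := hSHIM N k (h i) hA (hh i).1 (hh i).2
    refine ⟨∑ n ∈ S, x n • F n, ?_, fun m hm => ?_⟩
    · rw [map_sum]
      exact Finset.sum_eq_zero fun n hn => by rw [map_smul, hlF n (h1 n hn), smul_zero]
    · rw [h2 m hm, map_sum, Finset.sum_apply]
      refine Finset.sum_congr rfl fun n hn => ?_
      rw [map_smul, Pi.smul_apply, hA', (hF n (h1 n hn)).2 m hm, smul_eq_mul]
  choose G hG1 hG2 using hG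
  have hGi : LinearIndependent ℂ G := by
    refine Fintype.linearIndependent_iff.2 fun x hx => Fintype.linearIndependent_iff.1 hi x ?_
    refine hyp _ ((VS hS k).sum_mem fun i _ => (VS hS k).smul_mem _ (hh i).1) ?_
      (shim_zero (k := k) fun m hm => ?_)
    · rw [Finset.sum_apply]
      exact Finset.sum_eq_zero fun i _ => by rw [Pi.smul_apply, (hh i).2, smul_zero]
    · have e := congrFun (congrArg A hx) m
      rw [map_sum, map_zero, Finset.sum_apply, Pi.zero_apply] at e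
      rw [shim_sum, ← e]
      exact Finset.sum_congr rfl fun i _ => by
        rw [map_smul, Pi.smul_apply, hG2 i m hm, smul_eq_mul]
  have : FiniteDimensional ℂ (CuspForm 𝒮ℒ (2 * k : ℕ)) :=
    CuspForm.discriminantEquiv.symm.finiteDimensional
  have htop := hGi.span_eq_top_of_card_eq_finrank'
    (le_antisymm hGi.fintype_card_le_finrank (by rwa [Fintype.card_fin]))
  have hle : Submodule.span ℂ (Set.range G) ≤ LinearMap.ker l :=
    Submodule.span_le.2 (by rintro _ ⟨i, rfl⟩; exact hG1 i)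
  have hf : f = 0 := hl0 (hle (by rw [htop]; trivial))
  have h1 := hH.1
  rw [← hA', hf, map_zero] at h1
  exact zero_ne_one h1

end Pool.Agent.MP_5f72fe_nt.H62
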