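import Pool.Agent.MP_5f72fe_nt.H3.SpecC

/-! The Fourier coefficients of the theta family. -/

namespace Pool.Agent.MP_5f72fe_nt.H62

open Complex Filter Topology MeasureTheory Set
open scoped Real NumberTheorySymbols
open Pool.Agent.MP_5f72fe_nt.H3

theorem sum_shift (N : ℕ) (φ : ℤ → ℂ) (h : ∀ c, φ (c + N) = φ c) (k : ℤ) :
    ∑ c ∈ Finset.range N, φ (c + k) = ∑ c ∈ Finset.range N, φ c := by
  have step : ∀ k : ℤ, ∑ c ∈ Finset.range N, φ (c + (k + 1)) = ∑ c ∈ Finset.range N, φ (c + k) := by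
    intro k
    have e1 := Finset.sum_range_succ (fun c : ℕ => φ (c + k)) N
    have e2 := Finset.sum_range_succ' (fun c : ℕ => φ (c + k)) N
    have e3 : ∑ c ∈ Finset.range N, φ (((c + 1 : ℕ) : ℤ) + k) =
        ∑ c ∈ Finset.range N, φ (c + (k + 1)) :=
      Finset.sum_congr rfl fun c _ => congrArg φ (by push_cast; ring)
    rw [e1, e3, add_comm (N : ℤ) k, h, Nat.cast_zero, zero_add] at e2
    exact (add_right_cancel e2).symm
  induction k using Int.induction_on with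
  | zero => simp
  | succ k ih => rw [step, ih]
  | pred k ih => rw [← step, sub_add_cancel, ih]

theorem XX_per (hC : RowCHI) (N : ℕ) (a δ b : ℤ) : XX N a δ (b + N) = XX N a δ b := by
  refine Finset.sum_congr rfl fun c _ => ?_
  have h := hC.per N a b c 0 1 0
  simp only [mul_zero, add_zero, mul_one] at h
  rw [h]

theorem XX_tr (hJ : RowJH) (hC : RowCHI) {N : ℕ} (hN : Odd N) (a δ b t : ℤ) :
    XX N a δ (b + 2 * a * t) = XX N a δ b * E ((a * t ^ 2 + b * t) * δ / N) := by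
  have N0 : (N : ℂ) ≠ 0 := Nat.cast_ne_zero.2 hN.pos.ne'
  have h := sum_shift N (fun c : ℤ => (chi N a (b + 2 * a * t) c : ℂ) * E (c * δ / N))
    (fun c => by
      have h1 := hC.per N a (b + 2 * a * t) c 0 0 1
      simp only [mul_zero, add_zero, mul_one] at h1
      have h2 : (((c + N : ℤ) : ℂ)) * δ / N = c * δ / N + δ := by
        push_cast; field_simp
      rw [h1, h2, hJ.add, hJ.int, mul_one]) (a * t ^ 2 + b * t)
  simp only [Int.cast_natCast] at h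
  rw [XX, ← h, XX, Finset.sum_mul]
  refine Finset.sum_congr rfl fun c _ => ?_
  rw [add_comm (c : ℤ), hC.tr N a b c t hN, mul_assoc, ← hJ.add]
  refine congrArg (fun z => (chi N a b c : ℂ) * E z) ?_
  push_cast; ring

theorem intE (hJ : RowJH) (k : ℤ) :
    ∫ u in (0 : ℝ)..1, E (k * u) = if k = 0 then 1 else 0 := by
  split_ifs with h
  · have h0 : E 0 = 1 := by simpa using hJ.int 0
    simp [h, h0]
  · have hc : (2 * π * I * k : ℂ) ≠ 0 := by
      simp [h, Real.pi_ne_zero]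
    have e : ∀ u : ℝ, E (k * u) = cexp (2 * π * I * k * u) := fun u => by
      rw [E, mul_assoc (2 * π * I : ℂ)]
    have h1 : cexp (2 * π * I * k) = 1 := hJ.int k
    simp only [e]
    rw [integral_exp_mul_complex hc]
    simp [h1]

theorem E_cont : Continuous E := by unfold E; fun_prop

/-- The terms of the series. -/
noncomputable def G (N : ℕ) (a δ : ℤ) (m μ : ℕ) (τ : ℂ) (b : ℤ) (u : ℝ) : ℂ :=
  (if b % 2 = μ then XX N a δ b else 0) *
    E (a * (a * τ + δ) * u ^ 2 / N + (b ^ 2 * τ / (4 * N) + b * ((a * τ + δ) * u / N)) + -(m * u))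

theorem Tt_eq (hJ : RowJH) (N : ℕ) (a δ : ℤ) (m μ : ℕ) (τ : ℂ) (u : ℝ) :
    Tt N a δ μ τ u * E (-(m * u)) = ∑' b, G N a δ m μ τ b u := by
  rw [Tt, thX, ← tsum_mul_left, ← tsum_mul_right]
  refine tsum_congr fun b => ?_
  rw [G, hJ.add (_ + _) (-_), hJ.add (_ / _) (_ + _)]
  split_ifs <;> ring

theorem G_bound (hJ : RowJH) {N : ℕ} (hN : 0 < N) (a δ : ℤ) (m μ : ℕ) {τ : ℂ} (hτ : 0 < τ.im)
    (b : ℤ) {u : ℝ} (h0 : 0 ≤ u) (h1 : u ≤ 1) : ‖G N a δ m μ τ b u‖ ≤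
      ‖XX N a δ b * E (b ^ 2 * (τ / 2) / (4 * N) + b * 0)‖ * Real.exp (2 * π * (a ^ 2 * τ.im / N)) := by
  have N0 : (0 : ℝ) < N := Nat.cast_pos.2 hN
  have e1 : ((a : ℂ) * (a * τ + δ) * u ^ 2 / N +
      (b ^ 2 * τ / (4 * N) + b * ((a * τ + δ) * u / N)) + -(m * u)) =
      (((b / 2 + a * u) ^ 2 / N : ℝ) : ℂ) * τ + (((a * u ^ 2 + b * u) * δ / N - m * u : ℝ) : ℂ) := by
    push_cast; ring
  have e2 : ((b : ℂ) ^ 2 * (τ / 2) / (4 * N) + b * 0) = ((b ^ 2 / (8 * N) : ℝ) : ℂ) * τ := by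
    push_cast; ring
  rw [G, norm_mul, norm_mul, hJ.norm, hJ.norm, e1, e2, mul_assoc ‖_‖, ← Real.exp_add]
  simp only [add_im, ofReal_im, add_zero, im_ofReal_mul]
  refine mul_le_mul ?_ (Real.exp_le_exp.2 ?_) (Real.exp_pos _).le (norm_nonneg _)
  · split_ifs
    · exact le_rfl
    · simp
  · have h2 : (b : ℝ) ^ 2 / 8 - a ^ 2 ≤ (b / 2 + a * u) ^ 2 := by
      have h3 : u ^ 2 ≤ 1 := by nlinarith
      nlinarith [sq_nonneg ((b : ℝ) / 2 + 2 * (a * u)), mul_le_mul_of_nonneg_left h3 (sq_nonneg (a : ℝ))]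
    have h4 := mul_le_mul_of_nonneg_left h2 (show 0 ≤ 2 * π * τ.im / N by positivity)
    have e3 : -(2 * π * ((b : ℝ) ^ 2 / (8 * N) * τ.im)) + 2 * π * (a ^ 2 * τ.im / N) =
        -(2 * π * τ.im / N * ((b : ℝ) ^ 2 / 8 - a ^ 2)) := by ring
    have e4 : -(2 * π * (((b : ℝ) / 2 + a * u) ^ 2 / N * τ.im)) =
        -(2 * π * τ.im / N * ((b : ℝ) / 2 + a * u) ^ 2) := by ring
    rw [e3, e4]
    linarith

theorem hasSum_G (hJ : RowJH) (hC : RowCHI) (hT : RowTH) {N : ℕ} (hN : Odd N) (a δ : ℤ)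
    (m μ : ℕ) {τ : ℂ} (hτ : 0 < τ.im) :
    HasSum (fun b => ∫ u in (0 : ℝ)..1, G N a δ m μ τ b u)
      (∫ u in (0 : ℝ)..1, Tt N a δ μ τ u * E (-(m * u))) := by
  have hs := (hT N (XX N a δ) hN (XX_per hC N a δ) (τ / 2) 0 (by simpa using hτ) 0
    (by norm_num)).1.mul_right (Real.exp (2 * π * (a ^ 2 * τ.im / N)))
  have hb := fun (b : ℤ) (u : ℝ) (hu : u ∈ uIoc (0 : ℝ) 1) =>
    G_bound hJ hN.pos a δ m μ hτ b (u := u) (by simpa using hu.1.le) (by simpa using hu.2)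
  refine intervalIntegral.hasSum_integral_of_dominated_convergence _ (fun b => ?_)
    (fun b => Eventually.of_forall (hb b)) (Eventually.of_forall fun _ _ => hs)
    intervalIntegrable_const (Eventually.of_forall fun u hu => ?_)
  · refine Continuous.aestronglyMeasurable ?_
    exact continuous_const.mul (E_cont.comp (by fun_prop))
  · rw [Tt_eq hJ]
    exact (hs.of_norm_bounded fun b => hb b u hu).hasSum

theorem case_zero (hJ : RowJH) (hG : RowGAUSS) (hC : RowCHI) {N : ℕ} (hN : Odd N)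
    (hs : Squarefree N) {δ : ℤ} (hδ : δ ≠ 0) (m μ : ℕ) (τ : ℂ) :
    HasSum (fun b => ∫ u in (0 : ℝ)..1, G N 0 δ m μ τ b u) (Cf N 0 δ m μ τ) := by
  have N0 : (N : ℂ) ≠ 0 := Nat.cast_ne_zero.2 hN.pos.ne'
  have hX : ∀ b : ℤ, XX N 0 δ b = if (N : ℤ) ∣ b then J(δ | N) * GS N else 0 := fun b => by
    simp only [XX, hC.zero N b _ hN hs]
    split_ifs
    · exact hG N hN hs δ
    · simp
  have h1 : ∀ b : ℤ, ¬ (N : ℤ) ∣ b → ∫ u in (0 : ℝ)..1, G N 0 δ m μ τ b u = 0 := fun b hb => by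
    simp [G, hX, hb]
  have h2 : ∀ b : ℤ, ∫ u in (0 : ℝ)..1, G N 0 δ m μ τ (N * b) u =
      if b % 2 = μ ∧ b * δ = m then GS N * J(δ | N) * E (N * (b : ℂ) ^ 2 * τ / 4) else 0 := by
    intro b
    have e : ∀ u : ℝ, G N 0 δ m μ τ (N * b) u =
        ((if b % 2 = μ then J(δ | N) * GS N else 0) * E (N * (b : ℂ) ^ 2 * τ / 4)) *
          E (((b * δ - m : ℤ) : ℂ) * u) := fun u => by
      have e1 : ((N : ℤ) * b) % 2 = b % 2 := by
        obtain ⟨k, rfl⟩ := hN
        have : ((2 * k + 1 : ℕ) : ℤ) * b = b + 2 * (k * b) := by push_cast; ring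
        rw [this, Int.add_mul_emod_self_left]
      rw [G, hX, if_pos (dvd_mul_right _ _), e1, mul_assoc (ite _ _ _), ← hJ.add]
      refine congrArg (HMul.hMul _) (congrArg E ?_)
      push_cast; field_simp; ring
    simp only [e]
    rw [intervalIntegral.integral_const_mul, intE hJ]
    by_cases c1 : b % 2 = μ <;> by_cases c2 : b * δ = m
    · rw [if_pos c1, if_pos (sub_eq_zero.2 c2), if_pos ⟨c1, c2⟩]; ring
    · simp [c2, sub_eq_zero]
    · simp [c1]
    · simp [c1]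
  have h3 := hasSum_single (f := fun b => ∫ u in (0 : ℝ)..1, G N 0 δ m μ τ b u)
    (L := .unconditional ℤ) (N * (m / δ)) fun b hb => by
      by_cases c : (N : ℤ) ∣ b
      · obtain ⟨b, rfl⟩ := c
        rw [h2, if_neg]
        rintro ⟨-, c⟩
        exact hb (by rw [← c, Int.mul_ediv_cancel _ hδ])
      · exact h1 b c
  rw [h2] at h3
  have e : (((m : ℤ) / δ) % 2 = μ ∧ (m : ℤ) / δ * δ = m) ↔ (δ ∣ m ∧ ((m : ℤ) / δ) % 2 = μ) :=
    ⟨fun h => ⟨Dvd.intro_left _ h.2, h.1⟩, fun h => ⟨h.2, Int.ediv_mul_cancel h.1⟩⟩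
  rw [Cf, if_pos rfl]
  simpa only [e] using h3

theorem sum_classes {a : ℤ} (ha : a ≠ 0) {g : ℤ → ℂ} {S : ℂ} (h : HasSum g S) {s : ℕ → ℂ}
    (hs : ∀ r : ℕ, HasSum (fun t : ℤ => g (r + 2 * a * t)) (s r)) :
    S = ∑ r ∈ Finset.range (2 * a.natAbs), s r := by
  have : NeZero (2 * a.natAbs) := ⟨by have := Int.natAbs_pos.2 ha; omega⟩
  have h1 := ((Equiv.prodComm _ _).trans (Int.divModEquiv (2 * a.natAbs)).symm).hasSum_iff.2 h
  have h2 := h1.prod_fiberwise (g := fun r => s r.1) fun r => by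
    change HasSum (fun t : ℤ => g (t * ((2 * a.natAbs : ℕ) : ℤ) + (r.1 : ℤ))) (s r.1)
    rcases Int.natAbs_eq a with e | e
    · have e1 : (fun t : ℤ => g (t * ((2 * a.natAbs : ℕ) : ℤ) + (r.1 : ℤ))) =
          fun t : ℤ => g (r.1 + 2 * a * t) := by
        funext t
        refine congrArg g ?_
        rw [Nat.cast_mul, ← e]; push_cast; ring
      rw [e1]; exact hs r.1
    · have e1 : (fun t : ℤ => g (t * ((2 * a.natAbs : ℕ) : ℤ) + (r.1 : ℤ))) =
          (fun t : ℤ => g (r.1 + 2 * a * t)) ∘ Equiv.neg ℤ := by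
        funext t
        refine congrArg g ?_
        have e2 : ((a.natAbs : ℕ) : ℤ) = -a := by omega
        rw [Nat.cast_mul, e2, Equiv.neg_apply]; push_cast; ring
      rw [e1]; exact (Equiv.neg ℤ).hasSum_iff.2 (hs r.1)
  rw [← Fin.sum_univ_eq_sum_range]
  exact h2.unique (hasSum_fintype _)

theorem gauss {A : ℂ} (hA : 0 < A.im) (x m : ℂ) :
    HasSum (fun t : ℤ => ∫ u in (0 : ℝ)..1, E (A * (u + t + x) ^ 2 - m * (u + t)))
      (E (m * x) * (-2 * I * A) ^ (-1 / 2 : ℂ) * E (-m ^ 2 / (4 * A))) := by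
  have A0 : A ≠ 0 := by
    rintro rfl
    simp at hA
  have p0 : (π : ℂ) ≠ 0 := ofReal_ne_zero.2 Real.pi_ne_zero
  have hb : (2 * π * I * A).re < 0 := by
    have : (2 * π * I * A).re = -(2 * π * A.im) := by simp
    rw [this]
    exact neg_neg_of_pos (by positivity)
  have h1 := (integrable_cexp_quadratic' hb (2 * π * I * (2 * A * x - m))
    (2 * π * I * (A * x ^ 2))).hasSum_intervalIntegral_comp_add_int
  rw [integral_cexp_quadratic hb] at h1
  have e1 : (π / -(2 * π * I * A) : ℂ) = (-2 * I * A)⁻¹ := by field_simp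
  have e2 : ((-2 * I * A)⁻¹) ^ (1 / 2 : ℂ) = (-2 * I * A) ^ (-1 / 2 : ℂ) := by
    rw [inv_cpow, ← cpow_neg, neg_div]
    rw [Ne, arg_eq_pi_iff, not_and_or, not_lt]
    left
    have : (-2 * I * A).re = 2 * A.im := by simp
    rw [this]; positivity
  have e3 : cexp (2 * π * I * (A * x ^ 2) - (2 * π * I * (2 * A * x - m)) ^ 2 /
      (4 * (2 * π * I * A))) = E (m * x) * E (-m ^ 2 / (4 * A)) := by
    rw [E, E, ← Complex.exp_add]
    refine congrArg cexp ?_
    field_simp; ring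
  have e4 : (fun t : ℤ => ∫ u in (0 : ℝ)..1, E (A * (u + t + x) ^ 2 - m * (u + t))) =
      fun t : ℤ => ∫ u in (0 : ℝ)..1, cexp (2 * π * I * A * ((u + t : ℝ) : ℂ) ^ 2 +
        2 * π * I * (2 * A * x - m) * ((u + t : ℝ) : ℂ) + 2 * π * I * (A * x ^ 2)) := by
    funext t
    refine intervalIntegral.integral_congr fun u _ => congrArg cexp ?_
    push_cast; ring
  rw [e1, e2, e3] at h1
  rw [e4, mul_comm (E (m * x)), mul_assoc (_ ^ (-1 / 2 : ℂ))]
  exact h1

theorem rowFAM1 : OfFAM1 := by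
  intro hJ hG hC hT N a δ m μ τ hN hs hne _ hτ
  have h := hasSum_G hJ hC hT hN a δ m μ hτ
  by_cases ha : a = 0
  · subst ha
    exact h.unique (case_zero hJ hG hC hN hs (fun e => hne (by rw [e])) m μ τ)
  have N0 : (N : ℂ) ≠ 0 := Nat.cast_ne_zero.2 hN.pos.ne'
  have a0 : (a : ℂ) ≠ 0 := Int.cast_ne_zero.2 ha
  have hA : 0 < ((a : ℂ) * (a * τ + δ) / N).im := by
    have e : (a : ℂ) * (a * τ + δ) / N = ((a ^ 2 / N : ℝ) : ℂ) * τ + ((a * δ / N : ℝ) : ℂ) := by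
      push_cast; ring
    have a1 : (a : ℝ) ≠ 0 := Int.cast_ne_zero.2 ha
    have N1 : (0 : ℝ) < N := Nat.cast_pos.2 hN.pos
    rw [e, add_im, ofReal_im, add_zero, im_ofReal_mul]
    positivity
  have l0 : (a : ℂ) * τ + δ ≠ 0 := by
    intro e
    rw [e] at hA
    simp at hA
  rw [sum_classes ha h (s := fun r => (if r % 2 = μ then XX N a δ r else 0) *
    E (-(r ^ 2 * δ) / (4 * a * N)) * (E (m * (r / (2 * a))) *
      (-2 * I * (a * (a * τ + δ) / N)) ^ (-1 / 2 : ℂ) *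
        E (-(m : ℂ) ^ 2 / (4 * (a * (a * τ + δ) / N))))) fun r => ?_]
  · rw [Cf, if_neg ha, Finset.sum_filter, Finset.sum_mul, Finset.sum_mul]
    refine Finset.sum_congr rfl fun r _ => ?_
    have e1 : (m : ℂ) * (r / (2 * a)) = m * r / (2 * a) := by ring
    have e2 : -2 * I * ((a : ℂ) * (a * τ + δ) / N) = -2 * I * a * (a * τ + δ) / N := by ring
    have e3 : -(m : ℂ) ^ 2 / (4 * (a * (a * τ + δ) / N)) =
        -(N * m ^ 2) / (4 * a * (a * τ + δ)) := by field_simp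
    rw [e1, e2, e3]
    split_ifs <;> ring
  · have h1 := (gauss hA (r / (2 * a)) m).mul_left
      ((if r % 2 = μ then XX N a δ r else 0) * E (-(r ^ 2 * δ) / (4 * a * N)))
    refine HasSum.congr_fun h1 fun t => ?_
    rw [← intervalIntegral.integral_const_mul]
    refine intervalIntegral.integral_congr fun u _ => ?_
    have e1 : (((r : ℤ) + 2 * a * t) % 2 = μ) ↔ (r % 2 = μ) := by
      rw [mul_assoc]; omega
    have e2 : E ((m * t : ℤ) : ℂ) = 1 := hJ.int _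
    simp only [G, e1, XX_tr hJ hC hN]
    split_ifs
    · rw [mul_assoc (XX N a δ r), mul_assoc (XX N a δ r), ← hJ.add, ← hJ.add,
        ← mul_one (E (-_ / _ + _)), ← e2, ← hJ.add]
      refine congrArg (HMul.hMul _) (congrArg E ?_)
      push_cast; field_simp; ring
    · simp

end Pool.Agent.MP_5f72fe_nt.H62
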